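import Pool.Agent.MP_c69980_ag.H98.TC

/-!
Row R4, second file: changes of chart.
-/

set_option autoImplicit false

noncomputable section

namespace Pool.Agent.MP_c69980_ag.H98

open MvPolynomial Metric Filter Topology MeasureTheory Set Real
open H60 (PR)
open H4

/-- The gradient of a polynomial. -/
def gr (θ : PR 2) (q : Fin 2 → ℂ) : Fin 2 → ℂ := fun i => eval q (pderiv i θ)

/-- The size of the first jet. -/
def jt (θ : PR 2) (q : Fin 2 → ℂ) : ℝ := ‖eval q θ‖ ^ 2 + H4.sq (gr θ q)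

lemma jt_cont (θ : PR 2) : Continuous (jt θ) := by
  refine ((cont_eval θ).norm.pow 2).add (continuous_finsetSum _ fun i _ => ?_)
  exact (cont_eval _).norm.pow 2

lemma jt_pos {θ : PR 2} {q : Fin 2 → ℂ} (h : eval q θ = 0 → gr θ q ≠ 0) : 0 < jt θ q := by
  unfold jt
  by_cases h0 : eval q θ = 0
  · have := sq_pos (h h0)
    positivity
  · have := sq_nonneg' (gr θ q)
    positivity

lemma sq_cont : Continuous fun w : Fin 2 → ℂ => H4.sq w :=
  continuous_finsetSum _ fun i _ => (continuous_apply i).norm.pow 2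

lemma sq_smul (t : ℝ) (w : Fin 2 → ℂ) : H4.sq (t • w) = t ^ 2 * H4.sq w := by
  unfold H4.sq
  rw [Finset.mul_sum]
  refine Finset.sum_congr rfl fun i _ => ?_
  rw [Pi.smul_apply, norm_smul, mul_pow, Real.norm_eq_abs, sq_abs]

variable {Ψ : (Fin 2 → ℂ) → Fin 2 → ℂ} {υ : (Fin 2 → ℂ) → ℂ} {θ θ' : PR 2} {q : Fin 2 → ℂ}

lemma M_ne (hj : jac Ψ q ≠ 0) {w : Fin 2 → ℂ} (hw : w ≠ 0) : fderiv ℂ Ψ q w ≠ 0 := fun h => by
  have := jac_le Ψ q w
  rw [h, norm_zero, mul_zero] at this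
  exact this.not_gt (mul_pos (norm_pos_iff.2 hj) (norm_pos_iff.2 hw))

lemma gr_rel (hΨ : AnalyticAt ℂ Ψ q) (hυ : AnalyticAt ℂ υ q)
    (h : ∀ᶠ p in 𝓝 q, eval (Ψ p) θ' = υ p * eval p θ) (h0 : eval q θ = 0) (w : Fin 2 → ℂ) :
    ∑ i, gr θ' (Ψ q) i * fderiv ℂ Ψ q w i = υ q * ∑ i, gr θ q i * w i := by
  have l : HasDerivAt (fun t : ℂ => q + t • w) w 0 := by
    simpa using ((hasDerivAt_id (0 : ℂ)).smul_const w).const_add q
  have e : q + (0 : ℂ) • w = q := by simp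
  have h1 : HasDerivAt (fun t : ℂ => Ψ (q + t • w)) (fderiv ℂ Ψ q w) 0 :=
    hΨ.differentiableAt.hasFDerivAt.comp_hasDerivAt_of_eq 0 l e.symm
  have h2 : HasDerivAt (fun t : ℂ => υ (q + t • w)) (fderiv ℂ υ q w) 0 :=
    hυ.differentiableAt.hasFDerivAt.comp_hasDerivAt_of_eq 0 l e.symm
  have h3 := chain h1 θ'
  have h4 := h2.fun_mul (chain l θ)
  have h5 : Tendsto (fun t : ℂ => q + t • w) (𝓝 0) (𝓝 q) := by
    simpa only [ContinuousAt, e] using l.continuousAt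
  have h6 := h3.unique (h4.congr_of_eventuallyEq (h5.eventually h))
  simp only [e, h0, mul_zero, zero_add] at h6
  exact h6

lemma norm_id {a a' w y : Fin 2 → ℂ} {m₀ m₁ : Fin 2 → ℂ} {u : ℂ} (hy0 : y ≠ 0)
    (hy : ∀ i, y i = m₀ i * w 0 + m₁ i * w 1) (h0 : a' 0 * m₀ 0 + a' 1 * m₀ 1 = u * a 0)
    (h1 : a' 0 * m₁ 0 + a' 1 * m₁ 1 = u * a 1) (hw : a 0 * w 0 + a 1 * w 1 = 0) :
    ‖m₀ 0 * m₁ 1 - m₁ 0 * m₀ 1‖ ^ 2 * H4.sq a' * H4.sq w = ‖u‖ ^ 2 * H4.sq a * H4.sq y := by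
  have h2 : a' 0 * y 0 + a' 1 * y 1 = 0 := by
    rw [hy 0, hy 1]
    linear_combination w 0 * h0 + w 1 * h1 + u * hw
  obtain ⟨s, s0, s1⟩ : ∃ s : ℂ, a' 0 = -s * y 1 ∧ a' 1 = s * y 0 := by
    by_cases b : y 0 = 0
    · have b1 : y 1 ≠ 0 := fun b1 => hy0 (funext fun i => by fin_cases i <;> simp [b, b1])
      refine ⟨-a' 0 / y 1, by field_simp, ?_⟩
      rw [b, mul_zero, zero_add] at h2
      rw [b, mul_zero]
      exact (mul_eq_zero.1 h2).resolve_right b1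
    · refine ⟨a' 1 / y 0, ?_, by field_simp⟩
      field_simp
      linear_combination h2
  set j := m₀ 0 * m₁ 1 - m₁ 0 * m₀ 1 with hj
  have e0 : u * a 0 = -(s * j * w 1) := by
    rw [← h0, s0, s1, hy 0, hy 1, hj]
    ring
  have e1 : u * a 1 = s * j * w 0 := by
    rw [← h1, s0, s1, hy 0, hy 1, hj]
    ring
  have f0 : ‖u‖ * ‖a 0‖ = ‖s‖ * ‖j‖ * ‖w 1‖ := by
    rw [← norm_mul, e0, norm_neg, norm_mul, norm_mul]
  have f1 : ‖u‖ * ‖a 1‖ = ‖s‖ * ‖j‖ * ‖w 0‖ := by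
    rw [← norm_mul, e1, norm_mul, norm_mul]
  simp only [H4.sq, Fin.sum_univ_two]
  rw [s0, s1, norm_mul, norm_mul, norm_neg]
  have g : ‖u‖ ^ 2 * (‖a 0‖ ^ 2 + ‖a 1‖ ^ 2) = (‖u‖ * ‖a 0‖) ^ 2 + (‖u‖ * ‖a 1‖) ^ 2 := by ring
  rw [g, f0, f1]
  ring

/-- The difference of the reference potentials. -/
def df (Ψ : (Fin 2 → ℂ) → Fin 2 → ℂ) (υ : (Fin 2 → ℂ) → ℂ) (θ θ' : PR 2) (q w : Fin 2 → ℂ) : ℝ :=
  log (‖jac Ψ q‖ ^ 2) - log (‖υ q‖ ^ 2) - log (jt θ q) + log (jt θ' (Ψ q)) +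
    (log (H4.sq w) - log (H4.sq (fderiv ℂ Ψ q w)))

theorem change (hTC : TCStmt) (hCmp : CmpStmt) : ChangeStmt := by
  intro C c c' K Ψ υ hC hc hK hΨ hυ hq hNS hR v
  have g1 : ∀ q ∈ K, eval q c.θ = 0 → gr c.θ q ≠ 0 := fun q a b h0 => by
    obtain ⟨i, hi⟩ := hNS q a (notMem_empty q) b
    exact hi (congrFun h0 i)
  have g2 : ∀ q ∈ K, eval (Ψ q) c'.θ = 0 → gr c'.θ (Ψ q) ≠ 0 := fun q a b h0 => by
    obtain ⟨-, b2, b3⟩ := hq q a
    have b4 : eval q c.θ = 0 := by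
      rw [b3.self_of_nhds] at b
      exact (mul_eq_zero.1 b).resolve_left b2
    refine g1 q a b4 (funext fun i => ?_)
    have := gr_rel (hΨ q a) (hυ q a) b3 b4 (Pi.single i 1)
    rw [h0] at this
    simp only [Pi.zero_apply, zero_mul, Finset.sum_const_zero] at this
    have := (mul_eq_zero.1 this.symm).resolve_left b2
    simpa [Pi.single_apply] using this
  have hd := hTC C c K (df Ψ υ c.θ c'.θ) hC hc hK ?_ ?_ ?_
  · obtain ⟨-, ⟨A, hA, hA'⟩, h3⟩ := hCmp C c c' K Ψ hK hΨ hR.1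
    obtain ⟨B, hB, hB'⟩ := h3 fun q a => (hq q a).1
    have hm : (C.m : ℝ) ≠ 0 := by exact_mod_cast hC.2.2.2.ne'
    have key : ∀ᶠ k in atTop, ∀ᵐ z, z ∈ dom C c K k →
        BR C c k z - BR C c' k z = df Ψ υ c.θ c'.θ (c.pt k z) (c.dv k z) := by
      filter_upwards [hc.1, hR.1, hR.2] with k a1 a2 a3
      filter_upwards [a1.2, a3] with z b1 b2 hz
      obtain ⟨-, b3, b4⟩ := b1 hz.1
      obtain ⟨-, b5, b6⟩ := rel_at hz.2.1 (hΨ _ hz.2.2) (a2 z hz)
      obtain ⟨d1, d2, d3⟩ := hq _ hz.2.2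
      have b7 := b2 hz
      have b8 : ‖c'.b k z‖ ≠ 0 := fun h0 => by
        rw [h0, zero_mul] at b7
        exact b3 (norm_eq_zero.1 b7)
      have d4 : ‖jac Ψ (c.pt k z)‖ ≠ 0 := norm_ne_zero_iff.2 d1
      have d5 : ‖υ (c.pt k z)‖ ≠ 0 := norm_ne_zero_iff.2 d2
      have d6 : ‖eval (c.pt k z) c.θ‖ ≠ 0 := norm_ne_zero_iff.2 b4
      have e1 : Bb C c k z = Bb C c' k z + log (‖jac Ψ (c.pt k z)‖ ^ 2) := by
        unfold Bb
        rw [b7, mul_pow, log_mul (pow_ne_zero _ b8) (by positivity), ← pow_mul, mul_comm C.m,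
          pow_mul, log_pow (‖jac Ψ (c.pt k z)‖ ^ 2)]
        field_simp
      have e2 : log (‖eval (Ψ (c.pt k z)) c'.θ‖ ^ 2) =
          log (‖υ (c.pt k z)‖ ^ 2) + log (‖eval (c.pt k z) c.θ‖ ^ 2) := by
        rw [d3.self_of_nhds, norm_mul, mul_pow, log_mul (pow_ne_zero _ d5) (pow_ne_zero _ d6)]
      unfold BR ref df
      rw [e1, b5, b6, e2]
      simp only [jt]
      unfold gr
      ring
    constructor
    · intro h
      refine ((h.smul (t := 2 * B) (by positivity)).add hC (hd.smul two_pos)).mono hC ?_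
      filter_upwards [key, hB'] with k a1 a2
      filter_upwards [a1] with z b1 hz
      refine ⟨hz, ?_⟩
      rw [← b1 hz]
      have b2 := mul_le_mul_of_nonneg_left (a2 z hz) (sq_nonneg (v k z - BR C c' k z))
      have b3 : 0 ≤ c.N2 k z := N2_nonneg
      have b4 : (v k z - BR C c k z) ^ 2 ≤
          2 * (v k z - BR C c' k z) ^ 2 + 2 * (BR C c k z - BR C c' k z) ^ 2 := by
        nlinarith [sq_nonneg (v k z - BR C c' k z + (BR C c k z - BR C c' k z))]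
      nlinarith [mul_le_mul_of_nonneg_right b4 b3]
    · intro h
      refine (((h.smul two_pos).add hC (hd.smul two_pos)).smul hA).mono hC ?_
      filter_upwards [key, hA'] with k a1 a2
      filter_upwards [a1] with z b1 hz
      refine ⟨hz, ?_⟩
      rw [← b1 hz]
      have b2 := mul_le_mul_of_nonneg_left (a2 z hz) (sq_nonneg (v k z - BR C c' k z))
      have b3 : 0 ≤ A * c.N2 k z := mul_nonneg hA.le N2_nonneg
      have b4 : (v k z - BR C c' k z) ^ 2 ≤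
          2 * (v k z - BR C c k z) ^ 2 + 2 * (BR C c k z - BR C c' k z) ^ 2 := by
        nlinarith [sq_nonneg (v k z - BR C c k z - (BR C c k z - BR C c' k z))]
      nlinarith [mul_le_mul_of_nonneg_right b4 b3]
  · have f1 : ∀ {f : (Fin 2 → ℂ) → ℝ}, ContinuousOn f K → (∀ q ∈ K, f q ≠ 0) →
        ContinuousOn (fun p : (Fin 2 → ℂ) × (Fin 2 → ℂ) => log (f p.1)) (K ×ˢ {0}ᶜ) :=
      fun hf h0 => (hf.log h0).comp continuousOn_fst fun p hp => hp.1
    refine ((((f1 ((jac_cont hΨ).norm.pow 2) fun q a => pow_ne_zero _ (norm_ne_zero_iff.2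
      (hq q a).1)).sub (f1 (hυ.continuousOn.norm.pow 2) fun q a => pow_ne_zero _
      (norm_ne_zero_iff.2 (hq q a).2.1))).sub (f1 (jt_cont _).continuousOn fun q a =>
      (jt_pos (g1 q a)).ne')).add (f1 ((jt_cont _).comp_continuousOn hΨ.continuousOn) fun q a =>
      (jt_pos (g2 q a)).ne')).add (ContinuousOn.sub ?_ ?_)
    · exact (sq_cont.comp continuous_snd).continuousOn.log fun p hp => (sq_pos hp.2).ne'
    · refine (sq_cont.comp_continuousOn ?_).log fun p hp => (sq_pos (M_ne (hq _ hp.1).1 hp.2)).ne'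
      exact (hΨ.fderiv.continuousOn.comp continuousOn_fst fun p hp => hp.1).clm_apply
        continuousOn_snd
  · intro q a w t ht
    by_cases hw : w = 0
    · rw [hw, smul_zero]
    · unfold df
      rw [(fderiv ℂ Ψ q).map_smul_of_tower, sq_smul, sq_smul,
        log_mul (by positivity) (sq_pos hw).ne',
        log_mul (by positivity) (sq_pos (M_ne (hq q a).1 hw)).ne']
      ring
  · intro q a w hw h0 h1
    obtain ⟨b1, b2, b3⟩ := hq q a
    have b4 : eval (Ψ q) c'.θ = 0 := by rw [b3.self_of_nhds, h0, mul_zero]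
    have r := fun i => gr_rel (hΨ q a) (hυ q a) b3 h0 (Pi.single i 1)
    have r0 := r 0
    have r1 := r 1
    simp only [Fin.sum_univ_two, Pi.single_eq_same, mul_one, ne_eq, one_ne_zero, zero_ne_one,
      not_false_eq_true, Pi.single_eq_of_ne, mul_zero, add_zero, zero_add] at r0 r1
    rw [Fin.sum_univ_two] at h1
    have e := norm_id (a := gr c.θ q) (M_ne b1 hw) (clm_apply (fderiv ℂ Ψ q) w) r0 r1 h1
    have p1 : ‖jac Ψ q‖ ^ 2 ≠ 0 := pow_ne_zero _ (norm_ne_zero_iff.2 b1)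
    have p2 : ‖υ q‖ ^ 2 ≠ 0 := pow_ne_zero _ (norm_ne_zero_iff.2 b2)
    have p3 := (sq_pos (g1 q a h0)).ne'
    have p4 := (sq_pos (g2 q a b4)).ne'
    have p5 := (sq_pos hw).ne'
    have p6 := (sq_pos (M_ne b1 hw)).ne'
    have e' := congrArg log e
    change log (‖jac Ψ q‖ ^ 2 * _ * _) = _ at e'
    rw [log_mul (mul_ne_zero p1 p4) p5, log_mul p1 p4, log_mul (mul_ne_zero p2 p3) p6,
      log_mul p2 p3] at e'
    unfold df jt
    rw [h0, b4]
    simp only [norm_zero, ne_eq, OfNat.ofNat_ne_zero, not_false_eq_true, zero_pow, zero_add]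
    linarith

theorem pull (hChange : ChangeStmt) : PullStmt := by
  intro C c c' G G' S S' Ψ υ hC hc hG hΨ hυ hq hNS hr hR hP η r hη hr0
  obtain ⟨r', hr', hr''⟩ := hr r hr0
  obtain ⟨v, v1, v2⟩ := hP η r' hη hr'
  have H : ∀ A A', A ⊆ G → (∀ q ∈ A, Ψ q ∈ A') →
      ∀ᶠ k in atTop, dom C c A k ⊆ dom (C.res (dom C c G)) c' A' k := fun A A' a b =>
    hR.1.mono fun k hk z hz => by
      have hz' := dom_mono a hz
      obtain ⟨a1, a2, -⟩ := rel_at hz.2.1 (hΨ _ hz'.2.2) (hk z hz')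
      exact ⟨hz', a1, a2 ▸ b _ hz.2.2⟩
  refine ⟨v, Valid.mono (C := C) hC v1 le_rfl (H G G' le_rfl fun q a => (hq q a).2.2.2),
    fun K hK hKG hKS => ?_⟩
  refine (hChange C c c' K Ψ υ hC hc hK (hΨ.mono hKG) (hυ.mono hKG) (fun q a => ?_)
    (fun q a _ => hNS q (hKG a) fun b => ?_) ⟨?_, ?_⟩ v).1 ?_
  · exact ⟨(hq q (hKG a)).1, (hq q (hKG a)).2.1,
      mem_of_superset (hG.mem_nhds (hKG a)) fun p b => (hq p b).2.2.1⟩
  · have := hKS q a q b
    rw [dist_self] at this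
    exact this.not_gt hr0
  · exact hR.1.mono fun k hk z hz => hk z (dom_mono hKG hz)
  · exact hR.2.mono fun k hk => hk.mono fun z a hz => a (dom_mono hKG hz)
  · have := v2 (Ψ '' K) (hK.image_of_continuousOn (hΨ.mono hKG).continuousOn)
      (by rintro _ ⟨q, a, rfl⟩; exact (hq q (hKG a)).2.2.2)
      (by rintro _ ⟨q, a, rfl⟩; exact hr'' q (hKG a) (hKS q a))
    exact Null.mono (C := C) hC this ((H K _ hKG fun q a => mem_image_of_mem Ψ a).mono
      fun k hk => .of_forall fun z hz => ⟨hk hz, le_rfl⟩)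

theorem change' : ChangeStmt := change tc cmp

theorem pull' : PullStmt := pull change'

end Pool.Agent.MP_c69980_ag.H98
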