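import Pool.Agent.MP_c69980_ag.H98.Change

/-!
Row R4, third file: patching along a cut-off function read in a chart.
-/

set_option autoImplicit false

noncomputable section

namespace Pool.Agent.MP_c69980_ag.H98

open MvPolynomial Metric Filter Topology MeasureTheory Set Real
open scoped ContDiff
open H60 (PR)
open H4

lemma D_congr {f g : ℂ → ℝ} {z : ℂ} (h : f =ᶠ[𝓝 z] g) (v : ℂ) : D v f =ᶠ[𝓝 z] D v g :=
  (h.fderiv (𝕜 := ℝ)).mono fun w a => by unfold D; rw [a]

lemma grad_congr {f g : ℂ → ℝ} {z : ℂ} (h : f =ᶠ[𝓝 z] g) : grad f z = grad g z := by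
  unfold grad
  rw [(D_congr h 1).eq_of_nhds, (D_congr h Complex.I).eq_of_nhds]

lemma lap_congr {f g : ℂ → ℝ} {z : ℂ} (h : f =ᶠ[𝓝 z] g) : lap f z = lap g z := by
  unfold lap
  rw [(D_congr (D_congr h 1) 1).eq_of_nhds,
    (D_congr (D_congr h Complex.I) Complex.I).eq_of_nhds]

lemma D_zero (v : ℂ) : D v (0 : ℂ → ℝ) = 0 := by
  funext z
  unfold D
  rw [show (0 : ℂ → ℝ) = fun _ => 0 from rfl, fderiv_fun_const]
  rfl

lemma of_D_zero {f : ℂ → ℝ} {z : ℂ} (h : ∀ v, D v f =ᶠ[𝓝 z] 0) : grad f z = 0 ∧ lap f z = 0 := by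
  unfold grad lap
  rw [(h 1).eq_of_nhds, (h Complex.I).eq_of_nhds, (D_congr (h 1) 1).eq_of_nhds,
    (D_congr (h Complex.I) Complex.I).eq_of_nhds, D_zero, D_zero]
  exact ⟨rfl, by simp⟩

variable {χ : (Fin 2 → ℂ) → ℝ} {p : ℂ → Fin 2 → ℂ} {z : ℂ}

lemma rder (hp : AnalyticAt ℂ p z) :
    HasFDerivAt p ((ContinuousLinearMap.toSpanSingleton ℂ (deriv p z)).restrictScalars ℝ) z :=
  hp.differentiableAt.hasDerivAt.hasFDerivAt.restrictScalars ℝ

lemma D_comp (hχ : ContDiff ℝ ∞ χ) (hp : AnalyticAt ℂ p z) (v : ℂ) :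
    D v (fun w => χ (p w)) z = fderiv ℝ χ (p z) (v • deriv p z) := by
  have h := ((hχ.differentiable (by simp)) (p z)).hasFDerivAt.comp z (rder hp)
  unfold D
  rw [show (fun w => χ (p w)) = χ ∘ p from rfl, h.fderiv]
  simp

lemma DD_comp (hχ : ContDiff ℝ ∞ χ) (hp : AnalyticAt ℂ p z) (v : ℂ) :
    D v (D v fun w => χ (p w)) z =
      fderiv ℝ (fderiv ℝ χ) (p z) (v • deriv p z) (v • deriv p z) +
        fderiv ℝ χ (p z) (v • v • deriv (deriv p) z) := by
  have e : D v (fun w => χ (p w)) =ᶠ[𝓝 z] fun w => fderiv ℝ χ (p w) (v • deriv p w) :=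
    hp.eventually_analyticAt.mono fun w a => D_comp hχ a v
  rw [(D_congr e v).eq_of_nhds]
  have h1 : Differentiable ℝ (fderiv ℝ χ) :=
    (hχ.fderiv_right (m := ∞) (by simp)).differentiable (by simp)
  have h2 := (h1 (p z)).hasFDerivAt.comp z (rder hp)
  have h3 := (rder hp.deriv).const_smul v
  have h4 := h2.clm_apply h3
  unfold D
  rw [show (fun w => fderiv ℝ χ (p w) (v • deriv p w)) =
    fun w => (fderiv ℝ χ ∘ p) w ((v • deriv p) w) from rfl, h4.fderiv]
  simp [add_comm]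

lemma comp_bd (hχ : ContDiff ℝ ∞ χ) (hp : AnalyticAt ℂ p z) {B₁ B₂ : ℝ}
    (h₁ : ‖fderiv ℝ χ (p z)‖ ≤ B₁) (h₂ : ‖fderiv ℝ (fderiv ℝ χ) (p z)‖ ≤ B₂) :
    ‖grad (fun w => χ (p w)) z‖ ^ 2 ≤ 2 * B₁ ^ 2 * ‖deriv p z‖ ^ 2 ∧
      |lap (fun w => χ (p w)) z| ≤ 2 * B₂ * ‖deriv p z‖ ^ 2 := by
  have a1 : ∀ v : ℂ, ‖v‖ = 1 → D v (fun w => χ (p w)) z ^ 2 ≤ B₁ ^ 2 * ‖deriv p z‖ ^ 2 := by
    intro v hv
    rw [D_comp hχ hp, ← sq_abs, ← mul_pow]
    refine pow_le_pow_left₀ (abs_nonneg _) ?_ 2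
    refine ((fderiv ℝ χ (p z)).le_opNorm _).trans ?_
    rw [norm_smul, hv, one_mul]
    exact mul_le_mul_of_nonneg_right h₁ (norm_nonneg _)
  have a2 : ∀ v : ℂ, ‖v‖ = 1 →
      |fderiv ℝ (fderiv ℝ χ) (p z) (v • deriv p z) (v • deriv p z)| ≤ B₂ * ‖deriv p z‖ ^ 2 := by
    intro v hv
    refine ((fderiv ℝ (fderiv ℝ χ) (p z)).le_opNorm₂ _ _).trans ?_
    rw [norm_smul, hv, one_mul, mul_assoc, ← pow_two]
    exact mul_le_mul_of_nonneg_right h₂ (by positivity)
  constructor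
  · rw [Complex.sq_norm, Complex.normSq_apply]
    have := a1 1 norm_one
    have := a1 Complex.I Complex.norm_I
    simp only [grad]
    nlinarith
  · unfold lap
    rw [DD_comp hχ hp, DD_comp hχ hp]
    have e : Complex.I • Complex.I • deriv (deriv p) z = -((1 : ℂ) • (1 : ℂ) • deriv (deriv p) z) := by
      rw [smul_smul, Complex.I_mul_I, one_smul, one_smul, neg_smul, one_smul]
    rw [e, map_neg]
    have b1 := abs_le.1 (a2 1 norm_one)
    have b2 := abs_le.1 (a2 Complex.I Complex.norm_I)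
    rw [abs_le]
    constructor <;> linarith [b1.1, b1.2, b2.1, b2.2]

variable {c : Ch} {k : ℕ}

lemma cut_an (h : ∀ i, AnalyticAt ℂ (c.x i k) z) :
    cut c χ k =ᶠ[𝓝 z] fun w => χ (c.pt k w) :=
  (eventually_all.2 fun i => (h i).eventually_analyticAt).mono fun w a => by
    unfold cut
    rw [if_pos a]

lemma cut_pole {O : Set ℂ} (hs : HasCompactSupport χ) (hM : ∀ i, Mer O (c.x i k)) (hz : z ∈ O)
    (h : ¬ ∀ i, AnalyticAt ℂ (c.x i k) z) : cut c χ k =ᶠ[𝓝 z] 0 := by
  obtain ⟨i, hi⟩ := not_forall.1 h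
  obtain ⟨R, hR⟩ := hs.isCompact.isBounded.exists_norm_le
  rw [← nhdsNE_sup_pure, EventuallyEq, eventually_sup, eventually_pure]
  refine ⟨?_, by unfold cut; rw [if_neg h]; rfl⟩
  filter_upwards [(tendsto_norm_cobounded_atTop.comp
    ((hM i z hz).resolve_left hi)).eventually_gt_atTop R] with w a
  unfold cut
  split_ifs
  · refine image_eq_zero_of_notMem_tsupport fun b => ?_
    exact ((norm_le_pi_norm (c.pt k w) i).trans (hR _ b)).not_gt a
  · rfl

theorem patch (hV : VPatchStmt) : PatchStmt := by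
  intro C c χ K η₀ hC hc hχ hs h01 hK hη₀
  obtain ⟨A, hA, hAs⟩ := (hc.2.1 K hK).pos hC
  have c1 : ContDiff ℝ ∞ (fderiv ℝ χ) := hχ.fderiv_right (m := ∞) (by simp)
  obtain ⟨B₁, hB₁⟩ := hK.exists_bound_of_continuousOn c1.continuous.continuousOn
  obtain ⟨B₂, hB₂⟩ := hK.exists_bound_of_continuousOn
    (c1.continuous_fderiv (by simp)).continuousOn
  set B : ℝ := 2 * B₁ ^ 2 + 2 * |B₂| + 1 with hB
  have hB0 : 0 < B := by positivity
  obtain ⟨η, hη, hV'⟩ := hV η₀ (B * A) hη₀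
  refine ⟨η, hη, fun O O₁ O₂ v₁ v₂ hO h1 h2 hN => ?_⟩
  refine hV' C O O₁ O₂ v₁ v₂ (cut c χ)
    (fun k => (dom C c K k).indicator fun z => B * c.N2 k z) hC ?_ h1 h2 ?_ ?_
  · filter_upwards [hO, hc.1] with k ⟨a1, a2, a3, a4, a5⟩ ⟨hM, _⟩
    refine ⟨a1, a2, a3, fun z hz => ContDiffAt.contDiffWithinAt ?_, fun z hz => ?_⟩
    · by_cases h : ∀ i, AnalyticAt ℂ (c.x i k) z
      · refine ContDiffAt.congr_of_eventuallyEq ?_ (cut_an h)
        have : AnalyticAt ℂ (c.pt k) z := analyticAt_pi_iff.2 h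
        exact hχ.contDiffAt.comp z (this.contDiffAt.restrict_scalars ℝ)
      · exact contDiffAt_const.congr_of_eventuallyEq (cut_pole hs hM (a4 hz) h)
    · have hY : 0 ≤ (dom C c K k).indicator (fun z => B * c.N2 k z) z :=
        indicator_nonneg (fun _ _ => mul_nonneg hB0.le N2_nonneg) z
      obtain ⟨b1, b2, b3⟩ := a5 z hz
      have b4 : z ∉ O₂ k → cut c χ k =ᶠ[𝓝 z] 1 := fun hn => by
        have d : z ∈ dom C c (interior {q | χ q = 1}) k := by
          by_contra d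
          exact hn (b2 d)
        filter_upwards [cut_an (χ := χ) d.2.1,
          (pt_an d).continuousAt (mem_interior_iff_mem_nhds.1 d.2.2)] with w e1 e2
        exact e1.trans e2
      have b5 : 0 ≤ cut c χ k z ∧ cut c χ k z ≤ 1 := by
        unfold cut
        split_ifs
        · exact h01 _
        · exact ⟨le_rfl, zero_le_one⟩
      refine ⟨b5.1, b5.2, fun hn => ?_, b4, ?_⟩
      · by_cases h : ∀ i, AnalyticAt ℂ (c.x i k) z
        · have d : c.pt k z ∉ tsupport χ := fun d => hn (b1 ⟨a4 hz, h, d⟩)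
          have an : AnalyticAt ℂ (c.pt k) z := analyticAt_pi_iff.2 h
          filter_upwards [cut_an (χ := χ) h,
            an.continuousAt (notMem_tsupport_iff_eventuallyEq.1 d)] with w e1 e2
          exact e1.trans e2
        · exact cut_pole hs hM (a4 hz) h
      · by_cases h : ∀ i, AnalyticAt ℂ (c.x i k) z
        · have an : AnalyticAt ℂ (c.pt k) z := analyticAt_pi_iff.2 h
          rw [grad_congr (cut_an h), lap_congr (cut_an h)]
          by_cases d : c.pt k z ∈ tsupport (fderiv ℝ χ)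
          · have d1 := b3 ⟨a4 hz, h, d⟩
            have d2 : z ∈ dom C c K k := ⟨a4 hz, h, d1⟩
            obtain ⟨e1, e2⟩ := comp_bd hχ an (hB₁ _ d1) ((hB₂ _ d1).trans (le_abs_self _))
            rw [(pt_der h).deriv] at e1 e2
            rw [indicator_of_mem d2]
            have e3 : ‖c.dv k z‖ ^ 2 ≤ c.N2 k z := le_sq _
            have e4 : B * ‖c.dv k z‖ ^ 2 ≤ B * c.N2 k z := mul_le_mul_of_nonneg_left e3 hB0.le
            have e5 := sq_nonneg ‖c.dv k z‖
            have e6 := mul_nonneg (abs_nonneg B₂) e5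
            have e7 := mul_nonneg (sq_nonneg B₁) e5
            rw [hB] at e4 ⊢
            constructor <;> nlinarith
          · obtain ⟨e1, e2⟩ := of_D_zero (f := fun w => χ (c.pt k w)) (z := z) fun v => by
              filter_upwards [an.eventually_analyticAt,
                an.continuousAt (notMem_tsupport_iff_eventuallyEq.1 d)] with w e1 e2
              have e3 : fderiv ℝ χ (c.pt k w) = 0 := e2
              rw [D_comp hχ e1, e3]
              rfl
            rw [e1, e2]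
            simpa using hY
        · obtain ⟨e1, e2⟩ := of_D_zero (f := cut c χ k) (z := z) fun v =>
            D_zero v ▸ D_congr (cut_pole hs hM (a4 hz) h) v
          rw [e1, e2]
          simpa using hY
  · refine (hAs.smul hB0.le).ind.mono hC le_rfl (.of_forall fun k => .of_forall fun z _ =>
      ⟨trivial, ?_⟩)
    exact indicator_le_indicator (le_max_left _ _)
  · refine (hN.smul hB0 η hη).ind.mono hC le_rfl (.of_forall fun k => .of_forall fun z hz =>
      ⟨trivial, ?_⟩)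
    by_cases d : z ∈ dom C c K k
    · rw [indicator_of_mem d, indicator_of_mem (show z ∈ O k ∩ dom C c K k from ⟨hz, d⟩)]
      exact le_max_of_le_left (le_of_eq (by ring))
    · rw [indicator_of_notMem d, mul_zero]
      exact indicator_nonneg (fun _ _ => le_max_right _ _) z

end Pool.Agent.MP_c69980_ag.H98
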