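import Pool.Agent.MP_c69980_ag.H4.Base

/-!
Row R4, first file: tangent concentration and comparison of charts.
-/

set_option autoImplicit false

namespace Pool.Agent.MP_c69980_ag.H98

open MvPolynomial Metric Filter Topology MeasureTheory Set Real
open H60 (PR)
open H4

lemma chain {x : ℂ → Fin 2 → ℂ} {v : Fin 2 → ℂ} {z : ℂ} (h : HasDerivAt x v z) (P : PR 2) :
    HasDerivAt (fun z => eval (x z) P) (∑ j, eval (x z) (pderiv j P) * v j) z := by
  induction P using MvPolynomial.induction_on with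
  | C c => simpa using hasDerivAt_const z c
  | add p q hp hq => simpa [add_mul, Finset.sum_add_distrib] using hp.fun_add hq
  | mul_X p i hp =>
    have := hp.fun_mul (hasDerivAt_pi.1 h i)
    simp only [map_mul, eval_X]
    refine this.congr_deriv ?_
    simp only [Derivation.leibniz, smul_eq_mul, map_add, map_mul, add_mul, Finset.sum_add_distrib,
      eval_X, pderiv_X, mul_assoc, ← Finset.mul_sum]
    simp [Pi.single_apply, apply_ite (eval (x z)), mul_comm, add_comm]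

variable {C : Ctx} {c : Ch} {G : Set (Fin 2 → ℂ)} {k : ℕ} {z : ℂ}

lemma pt_der (h : ∀ i, AnalyticAt ℂ (c.x i k) z) : HasDerivAt (c.pt k) (c.dv k z) z :=
  hasDerivAt_pi.2 fun i => (h i).differentiableAt.hasDerivAt

lemma ev_der (h : ∀ i, AnalyticAt ℂ (c.x i k) z) (P : PR 2) :
    deriv (c.ev P k) z = ∑ j, eval (c.pt k z) (pderiv j P) * c.dv k z j :=
  (chain (pt_der h) P).deriv

lemma sq_le (y : Fin 2 → ℂ) : H4.sq y ≤ 2 * ‖y‖ ^ 2 := by
  have h0 := pow_le_pow_left₀ (norm_nonneg _) (norm_le_pi_norm y 0) 2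
  have h1 := pow_le_pow_left₀ (norm_nonneg _) (norm_le_pi_norm y 1) 2
  unfold H4.sq
  rw [Fin.sum_univ_two]
  linarith

lemma le_sq (y : Fin 2 → ℂ) : ‖y‖ ^ 2 ≤ H4.sq y := by
  have h : ‖y‖ ≤ √(H4.sq y) := by
    refine (pi_norm_le_iff_of_nonneg (sqrt_nonneg _)).2 fun i => le_sqrt_of_sq_le ?_
    exact Finset.single_le_sum (f := fun i => ‖y i‖ ^ 2) (fun _ _ => by positivity)
      (Finset.mem_univ i)
  calc ‖y‖ ^ 2 ≤ √(H4.sq y) ^ 2 := by gcongr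
    _ = _ := sq_sqrt (sq_nonneg' y)

lemma sq_pos {y : Fin 2 → ℂ} (h : y ≠ 0) : 0 < H4.sq y :=
  lt_of_lt_of_le (pow_pos (norm_pos_iff.2 h) 2) (le_sq y)

lemma sq_zero : H4.sq (0 : Fin 2 → ℂ) = 0 := by simp [H4.sq]

lemma cont_eval (P : PR 2) : Continuous fun q : Fin 2 → ℂ => eval q P :=
  MvPolynomial.continuous_eval P

/-- The derivative is controlled by the Poincare density. -/
lemma le_Pc {ρ : ℂ → ℂ} (h0 : ρ z ≠ 0) (h1 : ‖ρ z‖ < 1) : ‖deriv ρ z‖ ^ 2 ≤ 4 * Pc ρ z := by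
  have hx : 0 < ‖ρ z‖ := norm_pos_iff.2 h0
  have hl : log ‖ρ z‖ < 0 := log_neg hx h1
  have h2 := abs_log_mul_self_lt _ hx h1.le
  have h3 : (log ‖ρ z‖ * ‖ρ z‖) ^ 2 < 1 := by
    rw [← sq_abs]
    exact pow_lt_one₀ (abs_nonneg _) h2 two_ne_zero
  have e : ‖ρ z‖ ^ 2 * log (‖ρ z‖ ^ 2) ^ 2 = 4 * (log ‖ρ z‖ * ‖ρ z‖) ^ 2 := by
    rw [log_pow]
    push_cast
    ring
  have h4 : 0 < (log ‖ρ z‖ * ‖ρ z‖) ^ 2 := sq_pos_of_neg (mul_neg_of_neg_of_pos hl hx)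
  unfold Pc
  rw [e, ← mul_div_assoc, le_div_iff₀ (by positivity)]
  nlinarith [sq_nonneg ‖deriv ρ z‖]

theorem tc : TCStmt := by
  intro C c K d hC hc hK hd hh hz η hη
  obtain ⟨A, hA, hAs⟩ := (hc.2.1 K hK).pos hC
  set Z : Set ((Fin 2 → ℂ) × (Fin 2 → ℂ)) := K ×ˢ sphere 0 1 with hZ
  have hZc : IsCompact Z := hK.prod (isCompact_sphere _ _)
  have hZs : Z ⊆ K ×ˢ {0}ᶜ := by
    refine prod_mono le_rfl fun w hw h0 => ?_
    rw [mem_singleton_iff.1 h0] at hw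
    simp at hw
  have hdZ := hd.mono hZs
  obtain ⟨M, hM⟩ := hZc.exists_bound_of_continuousOn hdZ
  set ε : ℝ := √(η / 3 / A) with hε
  have hε0 : 0 < ε := by positivity
  set φ : (Fin 2 → ℂ) × (Fin 2 → ℂ) → ℝ := fun p =>
    ‖eval p.1 c.θ‖ + ‖∑ i, eval p.1 (pderiv i c.θ) * p.2 i‖ with hφ
  have hφc : Continuous φ := by
    refine ((cont_eval _).comp continuous_fst).norm.add (continuous_finsetSum _ fun i _ => ?_).norm
    exact ((cont_eval _).comp continuous_fst).mul ((continuous_apply i).comp continuous_snd)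
  have hZ' : IsCompact (Z ∩ (fun p => |d p.1 p.2|) ⁻¹' Ici ε) :=
    hZc.of_isClosed_subset (hdZ.abs.preimage_isClosed_of_isClosed hZc.isClosed isClosed_Ici)
      inter_subset_left
  obtain ⟨δ, hδ, hδs⟩ := hZ'.exists_forall_le' (a := 0) hφc.continuousOn fun p hp => by
    by_contra hn
    have a1 : ‖eval p.1 c.θ‖ = 0 := by
      simp only [hφ] at hn
      linarith [norm_nonneg (eval p.1 c.θ), norm_nonneg (∑ i, eval p.1 (pderiv i c.θ) * p.2 i)]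
    have a2 : ‖∑ i, eval p.1 (pderiv i c.θ) * p.2 i‖ = 0 := by
      simp only [hφ] at hn
      linarith [norm_nonneg (eval p.1 c.θ), norm_nonneg (∑ i, eval p.1 (pderiv i c.θ) * p.2 i)]
    have := hz p.1 hp.1.1 p.2 (hZs hp.1).2 (norm_eq_zero.1 a1) (norm_eq_zero.1 a2)
    have a3 : ε ≤ |d p.1 p.2| := hp.2
    rw [this, abs_zero] at a3
    exact a3.not_gt hε0
  have key : ∀ q ∈ K, ∀ w : Fin 2 → ℂ, w ≠ 0 → |d q w| ≤ M ∧ (|d q w| ≤ ε ∨
      δ * ‖w‖ ≤ ‖eval q c.θ‖ * ‖w‖ + ‖∑ i, eval q (pderiv i c.θ) * w i‖) := by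
    intro q hq w hw
    have hw0 : 0 < ‖w‖ := norm_pos_iff.2 hw
    have hm : (q, ‖w‖⁻¹ • w) ∈ Z := ⟨hq, by simp [norm_smul, hw0.ne']⟩
    have e := hh q hq w _ (inv_pos.2 hw0)
    refine ⟨by simpa [e] using hM _ hm, ?_⟩
    rcases le_total |d q w| ε with a | a
    · exact Or.inl a
    · refine Or.inr ?_
      have := hδs (q, ‖w‖⁻¹ • w) ⟨hm, by simpa [e] using a⟩
      have e2 : ∑ i, eval q (pderiv i c.θ) * (‖w‖⁻¹ • w) i =
          ‖w‖⁻¹ • ∑ i, eval q (pderiv i c.θ) * w i := by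
        rw [Finset.smul_sum]
        exact Finset.sum_congr rfl fun i _ => by rw [Pi.smul_apply, mul_smul_comm]
      simp only [hφ] at this
      rw [e2, norm_smul, norm_inv, norm_norm] at this
      calc δ * ‖w‖ ≤ (‖eval q c.θ‖ + ‖w‖⁻¹ * ‖∑ i, eval q (pderiv i c.θ) * w i‖) * ‖w‖ := by
            gcongr
        _ = _ := by field_simp
  set B : ℝ := 32 * (M ^ 2 + 1) / δ ^ 2 with hB
  have hB0 : 0 < B := by positivity
  obtain ⟨η', hη', hF⟩ := hc.2.2.2 (η / 3 / B) (by positivity)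
  set δ' : ℝ := min η' (min (δ / 2) 1) with hδ'
  have hδ'0 : 0 < δ' := by positivity
  set K' := K ∩ (fun q => ‖eval q c.θ‖) ⁻¹' Ici δ' with hK'
  have hK'c : IsCompact K' := hK.inter_right (isClosed_Ici.preimage (cont_eval _).norm)
  have hN := (hc.2.2.1 K' hK'c fun q hq h0 => by
    have a : δ' ≤ ‖eval q c.θ‖ := hq.2
    rw [h0, norm_zero] at a
    exact a.not_gt hδ'0).smul (t := M ^ 2 + 1) (by positivity) (η / 3) (by positivity)
  have h1 := hAs.smul (t := ε ^ 2) (by positivity)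
  have h3 := hF.smul hB0.le
  have e1 : ε ^ 2 * A = η / 3 := by
    rw [hε, sq_sqrt (by positivity)]
    field_simp
  have e3 : B * (η / 3 / B) = η / 3 := by field_simp
  rw [e1] at h1
  rw [e3] at h3
  have p : 0 ≤ η / 3 := by positivity
  have h23 : Sm C (fun k => {z | z ∈ dom C c K k ∧ ε < |d (c.pt k z) (c.dv k z)|})
      (fun k z => d (c.pt k z) (c.dv k z) ^ 2 * c.N2 k z) (η / 3 + η / 3) := by
    refine hN.cases hC h3 p p (hc.1.mono fun k hk => hk.2.mono fun z a hz => ?_)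
    obtain ⟨hz1, hz2⟩ := hz
    obtain ⟨a1, -, a3⟩ := a hz1.1
    have hw : c.dv k z ≠ 0 := fun h0 => a1 (by rw [Ch.N2, h0, sq_zero])
    obtain ⟨b1, b2⟩ := key _ hz1.2.2 _ hw
    have b3 : d (c.pt k z) (c.dv k z) ^ 2 ≤ M ^ 2 + 1 := by
      have := pow_le_pow_left₀ (abs_nonneg _) b1 2
      rw [sq_abs] at this
      linarith
    have hN0 : 0 ≤ c.N2 k z := N2_nonneg
    rcases le_or_gt δ' ‖eval (c.pt k z) c.θ‖ with b | b
    · exact Or.inl ⟨⟨hz1.1, hz1.2.1, hz1.2.2, b⟩, mul_le_mul_of_nonneg_right b3 hN0⟩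
    · refine Or.inr ⟨⟨⟨hz1.1, hz1.2.1, trivial⟩, b.trans_le (min_le_left _ _)⟩, ?_⟩
      have b4 : ‖eval (c.pt k z) c.θ‖ < δ / 2 :=
        b.trans_le ((min_le_right _ _).trans (min_le_left _ _))
      have b5 : ‖eval (c.pt k z) c.θ‖ < 1 :=
        b.trans_le ((min_le_right _ _).trans (min_le_right _ _))
      have b6 := b2.resolve_left hz2.not_ge
      rw [← ev_der hz1.2.1] at b6
      have b7 : δ / 2 * ‖c.dv k z‖ ≤ ‖deriv (c.ev c.θ k) z‖ := by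
        nlinarith [norm_nonneg (c.dv k z)]
      have b8 := pow_le_pow_left₀ (by positivity) b7 2
      have b9 := le_Pc (ρ := c.ev c.θ k) a3 b5
      have b10 : c.N2 k z ≤ 32 / δ ^ 2 * Pc (c.ev c.θ k) z := by
        rw [div_mul_eq_mul_div, le_div_iff₀ (by positivity)]
        have := sq_le (c.dv k z)
        unfold Ch.N2
        nlinarith [sq_nonneg δ]
      calc _ ≤ (M ^ 2 + 1) * (32 / δ ^ 2 * Pc (c.ev c.θ k) z) :=
            mul_le_mul b3 b10 hN0 (by positivity)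
        _ = _ := by rw [hB]; ring
  have := Sm.cases (O := dom C c K) (e := fun k z => d (c.pt k z) (c.dv k z) ^ 2 * c.N2 k z)
    hC h1 h23 p (by positivity) (.of_forall fun k => .of_forall fun z hz => by
      rcases le_or_gt |d (c.pt k z) (c.dv k z)| ε with b | b
      · refine Or.inl ⟨hz, mul_le_mul_of_nonneg_right ?_ N2_nonneg⟩
        rw [← sq_abs]
        exact pow_le_pow_left₀ (abs_nonneg _) b 2
      · exact Or.inr ⟨⟨hz, b⟩, le_rfl⟩)
  rwa [show η / 3 + (η / 3 + η / 3) = η by ring] at this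

/-- The chart `c'` in terms of the chart `c` at one point. -/
lemma rel_at {c' : Ch} {Ψ : (Fin 2 → ℂ) → Fin 2 → ℂ} (hz : ∀ i, AnalyticAt ℂ (c.x i k) z)
    (hΨ : AnalyticAt ℂ Ψ (c.pt k z)) (h : ∀ i, c'.x i k =ᶠ[𝓝 z] fun w => Ψ (c.pt k w) i) :
    (∀ i, AnalyticAt ℂ (c'.x i k) z) ∧ c'.pt k z = Ψ (c.pt k z) ∧
      c'.dv k z = fderiv ℂ Ψ (c.pt k z) (c.dv k z) := by
  have h1 : AnalyticAt ℂ (fun w => Ψ (c.pt k w)) z := hΨ.comp (analyticAt_pi_iff.2 hz)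
  have h2 : HasDerivAt (fun w => Ψ (c.pt k w)) (fderiv ℂ Ψ (c.pt k z) (c.dv k z)) z :=
    hΨ.differentiableAt.hasFDerivAt.comp_hasDerivAt z (pt_der hz)
  refine ⟨fun i => (analyticAt_pi_iff.1 h1 i).congr (h i).symm,
    funext fun i => (h i).eq_of_nhds, funext fun i => ?_⟩
  exact (h i).deriv_eq.trans (hasDerivAt_pi.1 h2 i).deriv

lemma clm_apply (M : (Fin 2 → ℂ) →L[ℂ] Fin 2 → ℂ) (w : Fin 2 → ℂ) (i : Fin 2) :
    M w i = M (Pi.single 0 1) i * w 0 + M (Pi.single 1 1) i * w 1 := by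
  have e : w = w 0 • (Pi.single 0 1 : Fin 2 → ℂ) + w 1 • (Pi.single 1 1 : Fin 2 → ℂ) := by
    funext j
    fin_cases j <;> simp
  conv_lhs => rw [e]
  simp only [map_add, map_smul, Pi.add_apply, Pi.smul_apply, smul_eq_mul]
  ring

lemma entry_le (M : (Fin 2 → ℂ) →L[ℂ] Fin 2 → ℂ) (i j : Fin 2) : ‖M (Pi.single j 1) i‖ ≤ ‖M‖ := by
  refine (norm_le_pi_norm _ i).trans ((M.le_opNorm _).trans ?_)
  rw [Pi.norm_single, norm_one, mul_one]

lemma jac_le (Ψ : (Fin 2 → ℂ) → Fin 2 → ℂ) (q w : Fin 2 → ℂ) :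
    ‖jac Ψ q‖ * ‖w‖ ≤ 2 * ‖fderiv ℂ Ψ q‖ * ‖fderiv ℂ Ψ q w‖ := by
  set M := fderiv ℂ Ψ q
  have e0 : jac Ψ q * w 0 = M (Pi.single 1 1) 1 * M w 0 - M (Pi.single 1 1) 0 * M w 1 := by
    rw [clm_apply M w 0, clm_apply M w 1]
    unfold jac
    ring
  have e1 : jac Ψ q * w 1 = M (Pi.single 0 1) 0 * M w 1 - M (Pi.single 0 1) 1 * M w 0 := by
    rw [clm_apply M w 0, clm_apply M w 1]
    unfold jac
    ring
  have b : ∀ i j l, ‖M (Pi.single j 1) i * M w l‖ ≤ ‖M‖ * ‖M w‖ := fun i j l => by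
    rw [norm_mul]
    exact mul_le_mul (entry_le M i j) (norm_le_pi_norm _ l) (norm_nonneg _) (norm_nonneg _)
  rw [← norm_smul]
  refine (pi_norm_le_iff_of_nonneg (by positivity)).2 fun i => ?_
  fin_cases i
  · change ‖jac Ψ q * w 0‖ ≤ _
    rw [e0]
    exact (norm_sub_le _ _).trans (by linarith [b 1 1 0, b 0 1 1])
  · change ‖jac Ψ q * w 1‖ ≤ _
    rw [e1]
    exact (norm_sub_le _ _).trans (by linarith [b 0 0 1, b 1 0 0])

lemma jac_cont {Ψ : (Fin 2 → ℂ) → Fin 2 → ℂ} {K : Set (Fin 2 → ℂ)} (h : AnalyticOnNhd ℂ Ψ K) :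
    ContinuousOn (jac Ψ) K := by
  have h1 : ∀ i j : Fin 2, ContinuousOn (fun q => fderiv ℂ Ψ q (Pi.single j 1) i) K := fun i j =>
    (continuous_apply i).comp_continuousOn (h.fderiv.continuousOn.clm_apply continuousOn_const)
  exact ((h1 0 0).mul (h1 1 1)).sub ((h1 0 1).mul (h1 1 0))

theorem cmp : CmpStmt := by
  intro C c c' K Ψ hK hΨ hR
  obtain ⟨B, hB⟩ := hK.exists_bound_of_continuousOn hΨ.fderiv.continuousOn
  refine ⟨hR.mono fun k hk z hz => ?_, ⟨2 * B ^ 2 + 1, by positivity, hR.mono fun k hk z hz => ?_⟩,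
    fun hj => ?_⟩
  · obtain ⟨a, b, -⟩ := rel_at hz.2.1 (hΨ _ hz.2.2) (hk z hz)
    exact ⟨hz.1, a, b ▸ mem_image_of_mem Ψ hz.2.2⟩
  · obtain ⟨-, -, a⟩ := rel_at hz.2.1 (hΨ _ hz.2.2) (hk z hz)
    have a1 : ‖c'.dv k z‖ ≤ B * ‖c.dv k z‖ := by
      rw [a]
      exact (ContinuousLinearMap.le_opNorm _ _).trans
        (mul_le_mul_of_nonneg_right (hB _ hz.2.2) (norm_nonneg _))
    have a2 := pow_le_pow_left₀ (norm_nonneg _) a1 2
    have a3 := sq_le (c'.dv k z)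
    have a4 := le_sq (c.dv k z)
    unfold Ch.N2
    nlinarith [sq_nonneg B, sq_nonneg ‖c.dv k z‖]
  · obtain ⟨j, hj0, hjs⟩ := hK.exists_forall_le' (a := 0) (jac_cont hΨ).norm
      fun q hq => norm_pos_iff.2 (hj q hq)
    refine ⟨(8 * B ^ 2 + 1) / j ^ 2, by positivity, hR.mono fun k hk z hz => ?_⟩
    obtain ⟨-, -, a⟩ := rel_at hz.2.1 (hΨ _ hz.2.2) (hk z hz)
    have a1 : j * ‖c.dv k z‖ ≤ 2 * B * ‖c'.dv k z‖ := by
      have := jac_le Ψ (c.pt k z) (c.dv k z)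
      rw [← a] at this
      calc _ ≤ ‖jac Ψ (c.pt k z)‖ * ‖c.dv k z‖ :=
            mul_le_mul_of_nonneg_right (hjs _ hz.2.2) (norm_nonneg _)
        _ ≤ _ := this
        _ ≤ _ := by
          have := hB _ hz.2.2
          gcongr
    have a2 := pow_le_pow_left₀ (by positivity) a1 2
    have a3 := sq_le (c.dv k z)
    have a4 := le_sq (c'.dv k z)
    rw [div_mul_eq_mul_div, le_div_iff₀ (by positivity)]
    unfold Ch.N2
    nlinarith [sq_nonneg B, sq_nonneg ‖c'.dv k z‖, sq_nonneg j]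

end Pool.Agent.MP_c69980_ag.H98
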